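import Pool.Agent.Helper13.PLF.Defs
import Pool.Agent.Helper45.TW.SAe
import Pool.Agent.Helper45.M.INTf

/-!
# Project PL, block FCL: finitely many classes, the common fixed place
-/

set_option autoImplicit false
set_option linter.unusedSectionVars false

namespace Pool.Agent.PRL37

open VC IntermediateField NumberField IsDedekindDomain Pool.Agent.SC
open Filter Topology
open Pool.Agent.L (L0 MM)
open Pool.Agent.LN (Geo Act)
open Pool.Agent.M (Moves OverPl inL0 moves_comp moves_one moves_pow moves_over moves_congr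
  exists_down)
open Pool.Agent.ML (HasMu BPl)
open Pool.Agent.TOW (Au AuE exists_im over_im inv_fix moves_inv)
open Pool.Agent.PRL

noncomputable section

/-! ## Rare sets -/

section rare

variable {k : Type} [Field k] [NumberField k] {ℓ : ℕ} {P P' : k → Prop}

theorem rare_mono (h : PD.Rare ℓ P') (hP : ∀ c : k, c ≠ 0 → P c → P' c) : PD.Rare ℓ P := by
  intro ε hε
  filter_upwards [h ε hε] with X hX T h1 h2
  exact hX T h1 fun c hc => ⟨(h2 c hc).1, (h2 c hc).2.1, hP c (h2 c hc).1 (h2 c hc).2.2⟩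

theorem rare_none (hP : ∀ c : k, c ≠ 0 → ¬ P c) : PD.Rare ℓ P := by
  intro ε hε
  refine Eventually.of_forall fun X T _ h2 => ?_
  have h3 : T = ∅ := by
    rw [Finset.eq_empty_iff_forall_notMem]
    intro c hc
    exact hP c (h2 c hc).1 (h2 c hc).2.2
  rw [h3, Finset.card_empty]
  push_cast
  have h4 : 0 ≤ Real.log X := Real.log_natCast_nonneg X
  positivity

theorem rare_or (h : PD.Rare ℓ P) (h' : PD.Rare ℓ P') : PD.Rare ℓ (fun c => P c ∨ P' c) := by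
  classical
  intro ε hε
  filter_upwards [h (ε / 2) (by positivity), h' (ε / 2) (by positivity)] with X hX hX' T h1 h2
  have h3 := hX (T.filter P) (fun c hc c' hc' => h1 c (Finset.mem_filter.1 hc).1 c'
    (Finset.mem_filter.1 hc').1) fun c hc => by
      rw [Finset.mem_filter] at hc
      exact ⟨(h2 c hc.1).1, (h2 c hc.1).2.1, hc.2⟩
  have h4 := hX' (T.filter P') (fun c hc c' hc' => h1 c (Finset.mem_filter.1 hc).1 c'
    (Finset.mem_filter.1 hc').1) fun c hc => by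
      rw [Finset.mem_filter] at hc
      exact ⟨(h2 c hc.1).1, (h2 c hc.1).2.1, hc.2⟩
  have h5 : T ⊆ T.filter P ∪ T.filter P' := by
    intro c hc
    rw [Finset.mem_union, Finset.mem_filter, Finset.mem_filter]
    rcases (h2 c hc).2.2 with h6 | h6
    · exact Or.inl ⟨hc, h6⟩
    · exact Or.inr ⟨hc, h6⟩
  have h6 : T.card ≤ (T.filter P).card + (T.filter P').card :=
    (Finset.card_le_card h5).trans (Finset.card_union_le _ _)
  have h7 : (T.card : ℝ) ≤ (T.filter P).card + (T.filter P').card := by exact_mod_cast h6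
  linarith

theorem rare_finset {ι : Type} (S : Finset ι) {F : ι → k → Prop}
    (h : ∀ i ∈ S, PD.Rare ℓ (F i)) : PD.Rare ℓ (fun c => ∃ i ∈ S, F i c) := by
  classical
  induction S using Finset.induction_on with
  | empty => exact rare_none fun _ _ ⟨i, hi, _⟩ => absurd hi (Finset.notMem_empty i)
  | insert i S hi ih =>
    have h1 := rare_or (h i (Finset.mem_insert_self _ _))
      (ih fun j hj => h j (Finset.mem_insert_of_mem hj))
    refine rare_mono h1 fun c _ ⟨j, hj, hc⟩ => ?_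
    rcases Finset.mem_insert.1 hj with rfl | h2
    · exact Or.inl hc
    · exact Or.inr ⟨j, h2, hc⟩

theorem rare_set {ι : Type} {S : Set ι} (hS : S.Finite) {F : ι → k → Prop}
    (h : ∀ i ∈ S, PD.Rare ℓ (F i)) : PD.Rare ℓ (fun c => ∃ i ∈ S, F i c) := by
  refine rare_mono (rare_finset hS.toFinset fun i hi => h i (hS.mem_toFinset.1 hi))
    fun c _ ⟨i, hi, hc⟩ => ⟨i, hS.mem_toFinset.2 hi, hc⟩

theorem rare_fin {ι : Type} [Finite ι] {F : ι → k → Prop}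
    (h : ∀ i, PD.Rare ℓ (F i)) : PD.Rare ℓ (fun c => ∃ i, F i c) :=
  rare_mono (rare_set (Set.toFinite (Set.univ : Set ι)) fun i _ => h i)
    fun _ _ ⟨i, hc⟩ => ⟨i, trivial, hc⟩

end rare

/-! ## Automorphisms -/

section aut

variable {k K0 E U : Type} [Field k] [NumberField k] [Field K0] [Field E] [Field U] [Algebra k K0]
  [Algebra k E] [Algebra E U] [Algebra K0 U] [Algebra k U] [IsScalarTower k E U]
  [IsScalarTower k K0 U] {ℓ : ℕ} {h : K0} {r : U}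

theorem au_of_act {c : k} {Φ : (E ≃ₐ[k] E) →* (U ≃+* U)} (A : Act (K0 := K0) ℓ r c Φ)
    (g : E ≃ₐ[k] E) : Au E K0 (Φ g) := ⟨A.fixK g, fun e => ⟨g e, A.const g e⟩⟩

theorem au_of_act_inv {c : k} {Φ : (E ≃ₐ[k] E) →* (U ≃+* U)} (A : Act (K0 := K0) ℓ r c Φ)
    (g : E ≃ₐ[k] E) : Au E K0 (Φ g)⁻¹ := by
  rw [← map_inv]
  exact au_of_act A g⁻¹

theorem au_mem {N : IntermediateField E U} (hN : TW.Lvl E K0 N) {T : U ≃+* U} (hT : Au E K0 T) :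
    ∀ z ∈ N, T z ∈ N := hN.stab T hT.fixK hT.presE

theorem auE_pow {T : U ≃+* U} (hT : AuE E K0 T) (j : ℕ) : AuE E K0 (T ^ j) := by
  induction j with
  | zero => exact AuE.one
  | succ n ih =>
    rw [pow_succ]
    exact ih.mul hT

theorem L0_stab {T : U ≃+* U} (hT : Au E K0 T) : ∀ z ∈ L0 E K0 (U := U), T z ∈ L0 E K0 (U := U) := by
  intro z hz
  refine IntermediateField.adjoin_induction (p := fun z _ => T z ∈ L0 E K0 (U := U)) E
    ?_ ?_ ?_ ?_ ?_ hz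
  · rintro _ ⟨x, rfl⟩
    rw [hT.fixK]
    exact subset_adjoin _ _ ⟨x, rfl⟩
  · intro e
    obtain ⟨e', he'⟩ := hT.presE e
    show T (algebraMap E U e) ∈ _
    rw [he']
    exact IntermediateField.algebraMap_mem _ _
  · intro a b _ _ ha hb
    rw [map_add]
    exact add_mem ha hb
  · intro a _ ha
    rw [map_inv₀]
    exact inv_mem ha
  · intro a b _ _ ha hb
    rw [map_mul]
    exact mul_mem ha hb

/-- the image of a place under an automorphism which fixes the place below -/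
theorem moves_of_uniq {N N' : IntermediateField E U} (hle : N ≤ N') {T : U ≃+* U}
    (h1 : ∀ z ∈ N', T z ∈ N') (h2 : ∀ z ∈ N', T⁻¹ z ∈ N')
    (h3 : ∀ z ∈ N, T z ∈ N) (h4 : ∀ z ∈ N, T⁻¹ z ∈ N)
    (hE : ∀ e : E, ∃ e' : E, T⁻¹ (algebraMap E U e) = algebraMap E U e')
    {b : Place E N} {Q : Place E N'} (hQ : OverPl b Q) (hu : ∀ Q' : Place E N', OverPl b Q' → Q' = Q)
    (hm : Moves T N b b) : Moves T N' Q Q := by
  obtain ⟨Q', hQ'⟩ := exists_im h1 h2 hE Q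
  have h5 := over_im hle h3 h4 hQ hm hQ'
  rw [hu Q' h5] at hQ'
  exact hQ'

theorem r_ne (geo : Geo k K0 E U ℓ h r) (hℓ : ℓ.Prime) : r ≠ 0 := by
  rintro rfl
  exact geo.rnot 1 one_pos hℓ.one_lt (by rw [pow_one]; exact zero_mem _)

/-- automorphisms over `L0` multiply `r` by a root of unity -/
theorem r_pow (geo : Geo k K0 E U ℓ h r) (hℓ : ℓ.Prime) {ζ : E}
    (hζ : IsPrimitiveRoot ζ ℓ) {a : U ≃+* U} (ha : AuE E K0 a) :
    ∃ j : ℕ, a r = algebraMap E U ζ ^ j * r := by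
  have hr := r_ne geo hℓ
  have h1 : (a r / r) ^ ℓ = 1 := by
    rw [div_pow, ← map_pow, geo.rpow, ha.fixK, div_self]
    rw [← geo.rpow]
    exact pow_ne_zero _ hr
  have h2 : IsPrimitiveRoot (algebraMap E U ζ) ℓ :=
    hζ.map_of_injective (algebraMap E U).injective
  have : NeZero ℓ := ⟨hℓ.ne_zero⟩
  obtain ⟨j, -, hj⟩ := h2.eq_pow_of_pow_eq_one h1
  exact ⟨j, by rw [hj, div_mul_cancel₀ _ hr]⟩

/-- actions multiply `r` by a root of unity in `k` -/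
theorem act_r {c : k} {Φ : (E ≃ₐ[k] E) →* (U ≃+* U)} (hℓ : ℓ.Prime) (hμ : HasMu k ℓ) (hc : c ≠ 0)
    (A : Act (K0 := K0) ℓ r c Φ) (g : E ≃ₐ[k] E) :
    ∃ η : k, η ≠ 0 ∧ Φ g r = algebraMap E U (algebraMap k E η) * r := by
  obtain ⟨d, hd, h1⟩ := A.tw
  obtain ⟨ζ, hζ⟩ := hμ
  have hd0 : d ≠ 0 := by
    rintro rfl
    rw [zero_pow hℓ.ne_zero] at hd
    exact hc ((map_eq_zero _).1 hd.symm)
  have hgd : g d ≠ 0 := (map_ne_zero_iff g g.injective).2 hd0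
  have h2 : (d / g d) ^ ℓ = 1 := by
    rw [div_pow, ← map_pow, hd, AlgEquiv.commutes, div_self]
    exact (map_ne_zero_iff _ (algebraMap k E).injective).2 hc
  have : NeZero ℓ := ⟨hℓ.ne_zero⟩
  obtain ⟨j, -, hj⟩ := (hζ.map_of_injective (algebraMap k E).injective).eq_pow_of_pow_eq_one h2
  refine ⟨ζ ^ j, pow_ne_zero _ (hζ.ne_zero hℓ.ne_zero), ?_⟩
  have h3 : algebraMap E U (g d) ≠ 0 := (map_ne_zero_iff _ (algebraMap E U).injective).2 hgd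
  rw [map_pow, hj, map_div₀]
  have h4 := h1 g
  field_simp
  exact h4

end aut

/-! ## The classes -/

section classes

variable {k K0 E U : Type} [Field k] [NumberField k] [Field K0] [Field E] [Field U] [Algebra k K0]
  [Algebra k E] [Algebra E U] [Algebra K0 U] [Algebra k U] [IsScalarTower k E U]
  [IsScalarTower k K0 U] {ℓ : ℕ} {h : K0} {r : U}

/-- the situation -/
structure Sit (K0 : Type) {E U : Type} [Field K0] [Field E] [Field U] [Algebra E U] [Algebra K0 U]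
    (ℓ : ℕ) (r : U) (N : IntermediateField E U) (b : Place E (L0 E K0 (U := U)))
    (ι : U ≃+* U) (ζ : E) : Prop where
  lvl : TW.Lvl E K0 N
  le : MM E K0 r ≤ N
  triv : ∀ (T : U ≃+* U) (Q : Place E N), AuE E K0 T → T r = r → Moves T N Q Q → ∀ z ∈ N, T z = z
  ex : ∃ Q : Place E N, OverPl b Q
  auE : AuE E K0 ι
  prim : IsPrimitiveRoot ζ ℓ
  mul : ι r = algebraMap E U ζ * r
  fix : ∀ Q : Place E N, OverPl b Q → Moves ι N Q Q

variable {N : IntermediateField E U} {b : Place E (L0 E K0 (U := U))} {ι : U ≃+* U} {ζ : E}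

theorem L0_le_MM' : L0 E K0 (U := U) ≤ MM E K0 r := by
  refine adjoin_le_iff.2 ?_
  rintro _ ⟨x, rfl⟩
  exact subset_adjoin _ _ (Or.inl ⟨x, rfl⟩)

theorem Sit.L0le (S : Sit K0 ℓ r N b ι ζ) : L0 E K0 (U := U) ≤ N := L0_le_MM'.trans S.le

/-- automorphisms over `L0` which fix a place are powers of `ι` -/
theorem Sit.pow (S : Sit K0 ℓ r N b ι ζ) (geo : Geo k K0 E U ℓ h r) (hℓ : ℓ.Prime)
    {a : U ≃+* U} (ha : AuE E K0 a) {Q : Place E N} (hQ : OverPl b Q) (hm : Moves a N Q Q) :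
    ∃ j : ℕ, ∀ z ∈ N, a z = (ι ^ j) z := by
  obtain ⟨j, hj⟩ := r_pow geo hℓ S.prim ha
  refine ⟨j, ?_⟩
  have h1 : ∀ i : ℕ, (ι ^ i) r = algebraMap E U ζ ^ i * r := by
    intro i
    induction i with
    | zero => rw [pow_zero, pow_zero, one_mul]; rfl
    | succ n ih =>
      rw [pow_succ']
      show ι ((ι ^ n) r) = _
      rw [ih, map_mul, map_pow, S.auE.fixE, S.mul]
      ring
  have h2 : AuE E K0 (ι ^ j) := auE_pow S.auE j
  have h3 : ((ι ^ j)⁻¹ * a) r = r := by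
    show (ι ^ j)⁻¹ (a r) = r
    rw [hj, ← h1 j]
    exact (ι ^ j).symm_apply_apply r
  have h4 : Moves ((ι ^ j)⁻¹ * a) N Q Q := by
    refine moves_comp (au_mem S.lvl ha.au) hm ?_
    exact moves_inv (au_mem S.lvl h2.inv.au) (moves_pow (au_mem S.lvl S.auE.au) (S.fix Q hQ) j)
  have h5 := S.triv _ Q (h2.inv.mul ha) h3 h4
  intro z hz
  have h6 : (ι ^ j)⁻¹ (a z) = z := h5 z hz
  calc a z = (ι ^ j) ((ι ^ j)⁻¹ (a z)) := ((ι ^ j).apply_symm_apply _).symm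
    _ = _ := by rw [h6]

theorem Sit.fixall (S : Sit K0 ℓ r N b ι ζ) (geo : Geo k K0 E U ℓ h r) (hℓ : ℓ.Prime)
    {a : U ≃+* U} (ha : AuE E K0 a) {Q : Place E N} (hQ : OverPl b Q) (hm : Moves a N Q Q)
    {Q' : Place E N} (hQ' : OverPl b Q') : Moves a N Q' Q' := by
  obtain ⟨j, hj⟩ := S.pow geo hℓ ha hQ hm
  exact moves_congr (fun x hx => (hj x hx).symm)
    (moves_pow (au_mem S.lvl S.auE.au) (S.fix Q' hQ') j)

theorem pow_fix {z : U} (hz : ι z = z) (j : ℕ) : (ι ^ j) z = z := by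
  induction j with
  | zero => rfl
  | succ n ih =>
    rw [pow_succ]
    show (ι ^ n) (ι z) = z
    rw [hz, ih]

/-- the good actions -/
structure Gd (K0 : Type) {k E U : Type} [Field k] [Field K0] [Field E] [Field U] [Algebra k K0]
    [Algebra k E] [Algebra E U] [Algebra K0 U] (ℓ : ℕ) (r : U) (N : IntermediateField E U)
    (b : Place E (L0 E K0 (U := U))) (c : k) (Φ : (E ≃ₐ[k] E) →* (U ≃+* U)) : Prop where
  ne : c ≠ 0
  act : Act (K0 := K0) ℓ r c Φ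
  fix : ∀ g : E ≃ₐ[k] E, ∃ Q : Place E N, OverPl b Q ∧ Moves (Φ g) N Q Q

variable {c c' : k} {Φ Φ' : (E ≃ₐ[k] E) →* (U ≃+* U)}

theorem auE_inv_mul (A : Act (K0 := K0) ℓ r c Φ) (A' : Act (K0 := K0) ℓ r c' Φ')
    (g : E ≃ₐ[k] E) : AuE E K0 ((Φ' g)⁻¹ * Φ g) := by
  constructor
  · intro x
    show (Φ' g)⁻¹ (Φ g (algebraMap K0 U x)) = _
    rw [A.fixK]
    exact inv_fix (A'.fixK g x)
  · intro e
    show (Φ' g)⁻¹ (Φ g (algebraMap E U e)) = _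
    rw [A.const, ← A'.const]
    exact (Φ' g).symm_apply_apply _

theorem Gd.comm (G : Gd K0 ℓ r N b c Φ) (S : Sit K0 ℓ r N b ι ζ) (hℓ : ℓ.Prime) (hμ : HasMu k ℓ)
    (g : E ≃ₐ[k] E) : ∀ z ∈ N, Φ g (ι z) = ι (Φ g z) := by
  obtain ⟨Q, hQ, hm⟩ := G.fix g
  obtain ⟨η, hη0, hη⟩ := act_r hℓ hμ G.ne G.act g
  have A := G.act
  obtain ⟨ζ₀, hζ₀⟩ := hμ
  -- `ζ` is in `k`
  have : NeZero ℓ := ⟨hℓ.ne_zero⟩
  obtain ⟨j, -, hj⟩ := (hζ₀.map_of_injective (algebraMap k E).injective).eq_pow_of_pow_eq_one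
    S.prim.pow_eq_one
  obtain ⟨ζ', hζ'⟩ : ∃ ζ' : k, algebraMap k E ζ' = ζ := ⟨ζ₀ ^ j, by rw [map_pow]; exact hj⟩
  have h1 : (ι⁻¹ * (Φ g)⁻¹ * ι * Φ g) r = r := by
    show ι⁻¹ ((Φ g)⁻¹ (ι (Φ g r))) = r
    have e1 : ι (Φ g r) = Φ g (ι r) := by
      rw [hη, map_mul, S.auE.fixE, S.mul, map_mul, A.const, hη, ← hζ', AlgEquiv.commutes]
      ring
    rw [e1]
    have e2 : (Φ g)⁻¹ (Φ g (ι r)) = ι r := (Φ g).symm_apply_apply _
    rw [e2]
    exact ι.symm_apply_apply _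
  have h2 : AuE E K0 (ι⁻¹ * (Φ g)⁻¹ * ι * Φ g) := by
    constructor
    · intro x
      show ι⁻¹ ((Φ g)⁻¹ (ι (Φ g (algebraMap K0 U x)))) = _
      rw [A.fixK, S.auE.fixK, inv_fix (A.fixK g x), inv_fix (S.auE.fixK x)]
    · intro e
      show ι⁻¹ ((Φ g)⁻¹ (ι (Φ g (algebraMap E U e)))) = _
      rw [A.const, S.auE.fixE, ← A.const]
      have e2 : (Φ g)⁻¹ (Φ g (algebraMap E U e)) = algebraMap E U e := (Φ g).symm_apply_apply _
      rw [e2, inv_fix (S.auE.fixE e)]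
  have hN := S.lvl
  have i1 := au_mem hN (au_of_act A g)
  have i2 := au_mem hN (au_of_act_inv A g)
  have i3 := au_mem hN S.auE.au
  have i4 := au_mem hN S.auE.inv.au
  have h3 : Moves (ι⁻¹ * (Φ g)⁻¹ * ι * Φ g) N Q Q := by
    refine moves_comp i1 hm (moves_comp i3 (S.fix Q hQ) (moves_comp i2 (moves_inv i2 hm) ?_))
    exact moves_inv i4 (S.fix Q hQ)
  have h4 := S.triv _ Q h2 h1 h3
  intro z hz
  have h5 : ι⁻¹ ((Φ g)⁻¹ (ι (Φ g z))) = z := h4 z hz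
  have h6 : (Φ g)⁻¹ (ι (Φ g z)) = ι z := by
    rw [← h5]
    have : ι (ι⁻¹ ((Φ g)⁻¹ (ι (Φ g z)))) = (Φ g)⁻¹ (ι (Φ g z)) := ι.apply_symm_apply _
    rw [this, h5]
  have h7 : Φ g ((Φ g)⁻¹ (ι (Φ g z))) = ι (Φ g z) := (Φ g).apply_symm_apply _
  rw [← h7, h6]

theorem Gd.fixb (G : Gd K0 ℓ r N b c Φ) (S : Sit K0 ℓ r N b ι ζ) (g : E ≃ₐ[k] E) :
    Moves (Φ g) _ b b := by
  obtain ⟨Q, hQ, hm⟩ := G.fix g
  exact moves_over S.L0le hQ hQ hm

/-- the image of a place over `b` -/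
theorem Gd.im (G : Gd K0 ℓ r N b c Φ) (S : Sit K0 ℓ r N b ι ζ) (g : E ≃ₐ[k] E)
    {Q : Place E N} (hQ : OverPl b Q) : ∃ Q' : Place E N, OverPl b Q' ∧ Moves (Φ g) N Q Q' := by
  obtain ⟨Q', hm⟩ := exists_im (au_mem S.lvl (au_of_act G.act g))
    (au_mem S.lvl (au_of_act_inv G.act g)) (au_of_act_inv G.act g).presE Q
  exact ⟨Q', over_im S.L0le (L0_stab (au_of_act G.act g)) (L0_stab (au_of_act_inv G.act g)) hQ
    (G.fixb S g) hm, hm⟩

/-- the relation given by `Φ g` on the places over `b` -/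
def rel (b : Place E (L0 E K0 (U := U))) (N : IntermediateField E U)
    (Φ : (E ≃ₐ[k] E) →* (U ≃+* U)) (g : E ≃ₐ[k] E) :
    Set ({Q : Place E N // OverPl b Q} × {Q : Place E N // OverPl b Q}) :=
  {p | Moves (Φ g) N p.1.1 p.2.1}

theorem rel_sub (G : Gd K0 ℓ r N b c Φ) (G' : Gd K0 ℓ r N b c' Φ') (S : Sit K0 ℓ r N b ι ζ)
    (geo : Geo k K0 E U ℓ h r) (hℓ : ℓ.Prime) {g g' : E ≃ₐ[k] E}
    (hg : rel b N Φ g = rel b N Φ g') : rel b N Φ' g ⊆ rel b N Φ' g' := by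
  have hN := S.lvl
  -- `u = g'⁻¹ g` fixes all places
  have h1 : ∀ Q : Place E N, OverPl b Q → Moves (Φ (g'⁻¹ * g)) N Q Q := by
    intro Q hQ
    obtain ⟨Q₁, hQ₁, hm⟩ := G.im S g hQ
    have h2 : ((⟨Q, hQ⟩, ⟨Q₁, hQ₁⟩) :
        {Q : Place E N // OverPl b Q} × {Q : Place E N // OverPl b Q}) ∈ rel b N Φ g := hm
    rw [hg] at h2
    have h3 : Moves (Φ g') N Q Q₁ := h2
    rw [map_mul, map_inv]
    exact moves_comp (au_mem hN (au_of_act G.act g)) hm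
      (moves_inv (au_mem hN (au_of_act_inv G.act g')) h3)
  obtain ⟨Q₀, hQ₀, hm₀⟩ := G'.fix (g'⁻¹ * g)
  obtain ⟨u, hu⟩ : ∃ u, u = g'⁻¹ * g := ⟨_, rfl⟩
  rw [← hu] at h1 hm₀
  have h4 : AuE E K0 ((Φ u)⁻¹ * Φ' u) := auE_inv_mul G'.act G.act u
  have h5 : Moves ((Φ u)⁻¹ * Φ' u) N Q₀ Q₀ :=
    moves_comp (au_mem hN (au_of_act G'.act u)) hm₀
      (moves_inv (au_mem hN (au_of_act_inv G.act u)) (h1 Q₀ hQ₀))
  have h6 : ∀ Q : Place E N, OverPl b Q → Moves (Φ' u) N Q Q := by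
    intro Q hQ
    have h7 := S.fixall geo hℓ h4 hQ₀ h5 hQ
    have h8 := moves_comp (au_mem hN h4.au) h7 (h1 Q hQ)
    have e : Φ u * ((Φ u)⁻¹ * Φ' u) = Φ' u := by group
    rw [e] at h8
    exact h8
  rintro ⟨⟨Q, hQ⟩, ⟨Q', hQ'⟩⟩ hm
  have hm1 : Moves (Φ' g) N Q Q' := hm
  show Moves (Φ' g') N Q Q'
  have h9 := moves_comp (au_mem hN (au_of_act_inv G'.act u))
    (moves_inv (au_mem hN (au_of_act_inv G'.act u)) (h6 Q hQ)) hm1
  have e : Φ' g * (Φ' u)⁻¹ = Φ' g' := by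
    rw [← map_inv, ← map_mul, hu]
    congr 1
    group
  rw [e] at h9
  exact h9

theorem rel_eq (G : Gd K0 ℓ r N b c Φ) (G' : Gd K0 ℓ r N b c' Φ') (S : Sit K0 ℓ r N b ι ζ)
    (geo : Geo k K0 E U ℓ h r) (hℓ : ℓ.Prime) {g g' : E ≃ₐ[k] E}
    (hg : rel b N Φ g = rel b N Φ g') : rel b N Φ' g = rel b N Φ' g' :=
  Set.Subset.antisymm (rel_sub G G' S geo hℓ hg) (rel_sub G G' S geo hℓ hg.symm)

/-- actions with the same relations agree on the fixed field of `ι` -/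
theorem eq_of_rel (G : Gd K0 ℓ r N b c Φ) (G' : Gd K0 ℓ r N b c' Φ') (S : Sit K0 ℓ r N b ι ζ)
    (geo : Geo k K0 E U ℓ h r) (hℓ : ℓ.Prime) {g : E ≃ₐ[k] E}
    (hg : rel b N Φ g = rel b N Φ' g) : ∀ z ∈ N, ι z = z → Φ g z = Φ' g z := by
  have hN := S.lvl
  obtain ⟨Q, hQ⟩ := S.ex
  obtain ⟨Q₁, hQ₁, hm⟩ := G.im S g hQ
  have h2 : ((⟨Q, hQ⟩, ⟨Q₁, hQ₁⟩) :
      {Q : Place E N // OverPl b Q} × {Q : Place E N // OverPl b Q}) ∈ rel b N Φ g := hm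
  rw [hg] at h2
  have h3 : Moves (Φ' g) N Q Q₁ := h2
  have h4 : AuE E K0 ((Φ' g)⁻¹ * Φ g) := auE_inv_mul G.act G'.act g
  have h5 : Moves ((Φ' g)⁻¹ * Φ g) N Q Q :=
    moves_comp (au_mem hN (au_of_act G.act g)) hm
      (moves_inv (au_mem hN (au_of_act_inv G'.act g)) h3)
  obtain ⟨j, hj⟩ := S.pow geo hℓ h4 hQ h5
  intro z hz hιz
  have h6 : (Φ' g)⁻¹ (Φ g z) = z := by
    have h7 := hj z hz
    rw [pow_fix hιz] at h7
    exact h7
  calc Φ g z = Φ' g ((Φ' g)⁻¹ (Φ g z)) := ((Φ' g).apply_symm_apply _).symm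
    _ = _ := by rw [h6]

end classes

/-! ## The block -/

theorem fCL (hPXL : StmtPXL) (hKF : StmtKF) (hBRP : StmtBRP) (hNONE : StmtNONE) : StmtFCL := by
  classical
  intro k K0 E U _ _ _ _ _ _ _ _ _ _ _ _ ℓ h r hℓ hμ geo N hN hM hab b hb
  obtain ⟨t1, t2⟩ := hPXL k K0 E U ℓ h r hℓ geo N hN hM
  obtain ⟨⟨Q₀, hQ₀⟩, hfin, htr, hin⟩ := t2 b hb
  obtain ⟨ι, ζ, hι, hζ, hιr, hιQ⟩ := hin Q₀ hQ₀
  have S : Sit K0 ℓ r N b ι ζ := by
    refine ⟨hN, hM, t1, ⟨Q₀, hQ₀⟩, hι, hζ, hιr, fun Q hQ => ?_⟩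
    obtain ⟨a, ha, -, hm⟩ := htr Q₀ Q hQ₀ hQ
    have h1 : Moves (a * (ι * a⁻¹)) N Q Q :=
      moves_comp (au_mem hN (hι.mul ha.inv).au)
        (moves_comp (au_mem hN ha.inv.au) (moves_inv (au_mem hN ha.inv.au) hm) hιQ) hm
    refine moves_congr (fun x hx => ?_) h1
    show a (ι (a⁻¹ x)) = ι x
    rw [hab.comm a ι ha hι _ (au_mem hN ha.inv.au x hx)]
    congr 1
    exact a.apply_symm_apply x
  have hInr : Inr K0 E ℓ r N ι := ⟨hι, ⟨ζ, hζ, hιr⟩, hab.exp ι hι⟩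
  have hS : Finite {Q : Place E N // OverPl b Q} := hfin.to_subtype
  -- the set
  let F : k → ((E ≃ₐ[k] E) →* (U ≃+* U)) → Prop := fun c Φ => Gd K0 ℓ r N b c Φ ∧
    ¬ FixB E K0 ℓ h N Φ
  by_cases hex : ∃ c Φ, F c Φ
  swap
  · refine rare_none fun c hc ⟨Φ, hA, hg, hf⟩ => hex ⟨c, Φ, ⟨hc, hA, hg⟩, hf⟩
  obtain ⟨c₀, Φ₀, G₀, -⟩ := hex
  let T := Set ({Q : Place E N // OverPl b Q} × {Q : Place E N // OverPl b Q})
  let code : ((E ≃ₐ[k] E) →* (U ≃+* U)) → (T → T) := fun Φ R =>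
    if hR : ∃ g, rel b N Φ₀ g = R then rel b N Φ hR.choose else ∅
  have hcode : ∀ (c : k) (Φ : (E ≃ₐ[k] E) →* (U ≃+* U)), Gd K0 ℓ r N b c Φ → ∀ g,
      code Φ (rel b N Φ₀ g) = rel b N Φ g := by
    intro c Φ G g
    have hR : ∃ g', rel b N Φ₀ g' = rel b N Φ₀ g := ⟨g, rfl⟩
    show (if hR : ∃ g', rel b N Φ₀ g' = rel b N Φ₀ g then rel b N Φ hR.choose else ∅) = _
    rw [dif_pos hR]
    exact rel_eq G₀ G S geo hℓ hR.choose_spec
  have hfinT : Finite (T → T) := inferInstance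
  have key : ∀ i : T → T, PD.Rare ℓ (fun c : k => ∃ Φ, F c Φ ∧ code Φ = i) := by
    intro i
    by_cases hi : ∃ c Φ, F c Φ ∧ code Φ = i
    swap
    · exact rare_none fun c _ ⟨Φ, h1, h2⟩ => hi ⟨c, Φ, h1, h2⟩
    obtain ⟨c₁, Φ₁, ⟨G₁, hf₁⟩, hi₁⟩ := hi
    obtain ⟨g1, g2⟩ := hKF k K0 E U ℓ h r hℓ hμ geo N hN hM ι hInr c₁ Φ₁ G₁.ne G₁.act
      (G₁.comm S hℓ hμ)
    obtain ⟨geo', hMM, hL0⟩ := g2 ⟨algebraMap K0 U h, g1 h⟩ rfl
    have hact : ∀ (c : k) (Φ : (E ≃ₐ[k] E) →* (U ≃+* U)), F c Φ → code Φ = i →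
        Act (K0 := KI K0 N ι Φ₁) ℓ r c Φ := by
      intro c Φ hF hi2
      have A := hF.1.act
      refine ⟨A.const, fun g z => ?_, A.tw, A.cont⟩
      have h1 : rel b N Φ g = rel b N Φ₁ g := by
        rw [← hcode c Φ hF.1 g, ← hcode c₁ Φ₁ G₁ g, hi₁, hi2]
      have hz := z.2
      have h2 : ι (z : U) = z := hz.2 ι hι.au (Or.inl rfl)
      have h3 : Φ₁ g (z : U) = z := hz.2 (Φ₁ g) (au_of_act G₁.act g) (Or.inr ⟨g, rfl⟩)
      have h4 := eq_of_rel hF.1 G₁ S geo hℓ h1 z hz.1 h2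
      exact h4.trans h3
    by_cases hb' : ∀ b' : Place E (L0 E (KI K0 N ι Φ₁) (U := U)),
        BPl ℓ (⟨algebraMap K0 U h, g1 h⟩ : KI K0 N ι Φ₁) b' → ∃ g : E ≃ₐ[k] E,
          ¬ Moves (Φ₁ g) _ b' b'
    · refine rare_mono (hNONE k (KI K0 N ι Φ₁) E U ℓ _ r hℓ hμ geo' c₁ Φ₁ G₁.ne
        (hact c₁ Φ₁ ⟨G₁, hf₁⟩ hi₁) hb') fun c _ ⟨Φ, h1, h2⟩ => ⟨Φ, hact c Φ h1 h2⟩
    · exfalso
      push Not at hb'
      obtain ⟨b', hb1, hb2⟩ := hb'
      obtain ⟨⟨b₂, hb₂, hov⟩, Q, hQ, hιQ', huniq⟩ := (hBRP k K0 E U ℓ h r hℓ hμ geo N hN hM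
        (KI K0 N ι Φ₁) ⟨algebraMap K0 U h, g1 h⟩ rfl g1 geo' hMM ι hInr hL0).1 b' hb1
      have A₁ := hact c₁ Φ₁ ⟨G₁, hf₁⟩ hi₁
      have hle : L0 E (KI K0 N ι Φ₁) (U := U) ≤ N := fun z hz => ((hL0 z).1 hz).1
      apply hf₁
      refine ⟨b₂, Q, hb₂, ?_, fun g => ?_⟩
      · intro x hx hx'
        have hx1 : x ∈ L0 E (KI K0 N ι Φ₁) (U := U) :=
          (hL0 x).2 ⟨S.L0le hx, hι.onL0 x hx⟩
        rw [hov x hx hx1, hQ x hx1 hx']
      · exact moves_of_uniq hle (au_mem hN (au_of_act G₁.act g))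
          (au_mem hN (au_of_act_inv G₁.act g)) (L0_stab (au_of_act A₁ g))
          (L0_stab (au_of_act_inv A₁ g)) (au_of_act_inv G₁.act g).presE hQ huniq (hb2 g)
  refine rare_mono (rare_fin key) fun c hc ⟨Φ, hA, hg, hf⟩ => ?_
  exact ⟨code Φ, Φ, ⟨⟨hc, hA, hg⟩, hf⟩, rfl⟩

end

end Pool.Agent.PRL37
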